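import Pool.Agent.Y86.CH.FRD
import Pool.Agent.Y481.DX.Defs

/-!
# The part of the integral with a variable away from the origin, kernels depending on the edge

Job DX-FRDF; an edit of `Pool.Agent.Y86.CH.FRD`.
-/

set_option autoImplicit false

namespace Pool.Agent.Y470.DX

open Finset Filter Topology Metric
open Pool.Agent.W711.HT
open Pool.Agent.Y472
open Pool.Agent.Y481 (itI itN Sep)
open Pool.Agent.Y481.DX
open Pool.Agent.Y86.CH (sum_shift lip_all max_path mixed Ok wg Pth qx qx_re)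
open scoped Real

lemma WrF_sep {K : ℕ → ℂ → ℂ → ℂ} {n : ℕ} (hn : 2 ≤ n)
    (h : ∀ l < n, ∀ i < n, ∀ j < n, Sep n fun ψ => K l (ψ i) (ψ j)) : Sep n (WrF K n) :=
  Sep.prod (range n) fun j hj => h j (mem_range.1 hj) j (mem_range.1 hj) _
    (Nat.mod_lt _ (by omega))

/-- the bound of the integrand -/
lemma point {n N : ℕ} {R c B p₀ B' κ ε η θ V τ : ℝ} {σ : ℕ → ℂ → ℂ → ℂ} (hn : 2 ≤ n)
    (hA : PotA n R c B p₀ B' (SgF σ n) (DgF σ n)) {a : ℕ → ℤ} {z : ℕ → ℂ} {K : ℕ → ℂ → ℂ → ℂ}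
    (hκ : 0 < κ) (hε : 0 < ε) (hηκ : B * η + θ ≤ κ) (hnε : n * ε ≤ κ / 4)
    (hzη : ∀ i < n, ‖z i‖ ≤ η) (hηR : η < R / 2) (hητ : η ≤ τ) (hzθ : ∀ i < n, -(qx (a i) (z i)).re ≤ θ)
    (hmx : ∀ y : ℕ → ℂ, (∀ i < n, y i ∈ Pth (R / 8) (z i).im) → (Uj (SgF σ n) a n y).re ≤ V)
    (hz8 : ∀ i < n, |(z i).re| ≤ R / 8) (hz0 : ∀ i < n, 0 ≤ (z i).im)
    (h1 : ∀ j < n, ∀ ψ ∈ Rc (R / 2) (R / 2), ∀ ψ' ∈ Rc (R / 2) (R / 2),
      ‖K j ψ ψ'‖ ≤ Real.exp (N * ((σ j ψ ψ').re + ε)))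
    (h2 : ∀ j < n, ∀ ψ ψ' : ℂ, R / 8 ≤ |ψ.re| → |ψ.re| ≤ π → |ψ.im| ≤ 1 / N →
      |ψ'.re| ≤ R / 8 → |ψ'.im| ≤ τ → ‖K j ψ ψ'‖ ≤ Real.exp (N * ((σ j 0 ψ').re - κ)) ∧
      ‖K j ψ' ψ‖ ≤ Real.exp (N * ((σ j ψ' 0).re - κ)))
    (h3 : ∀ j < n, ∀ ψ ψ' : ℂ, R / 8 ≤ |ψ.re| → |ψ.re| ≤ π → |ψ.im| ≤ 1 / N →
      R / 8 ≤ |ψ'.re| → |ψ'.re| ≤ π → |ψ'.im| ≤ 1 / N →
      ‖K j ψ ψ'‖ ≤ Real.exp (N * ((σ j 0 0).re - 2 * κ)))
    {s : ℕ → Bool} {ψ : ℕ → ℂ} (hok : ∀ i < n, Ok (R / 8) (fun i => (z i).im) N s ψ i)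
    (hex : ∃ i < n, s i = true) :
    (∏ i ∈ Ico 0 n, wg a N s ψ i) * ‖WrF K n ψ‖ ≤ Real.exp (N * (V - 3 * κ / 4)) := by
  have hR := hA.pot.hR.1
  have hB := hA.hB
  have hN0 : (0 : ℝ) ≤ N := Nat.cast_nonneg N
  have him : ∀ i < n, (z i).im ≤ η := fun i hi =>
    (le_abs_self _).trans ((Complex.abs_im_le_norm _).trans (hzη i hi))
  set b : ℕ → ℝ := fun i => if s i = true then 1 else 0 with hb
  set ψ₀ : ℕ → ℂ := fun i => if s i = true then 0 else ψ i with hψ₀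
  set y : ℕ → ℂ := fun i => if s i = true then z i else ψ i with hy
  have hnear : ∀ i < n, s i = false → ψ i ∈ Rc (R / 2) (R / 2) ∧ |(ψ i).re| ≤ R / 8 ∧
      |(ψ i).im| ≤ τ ∧ ψ i ∈ Pth (R / 8) (z i).im := by
    intro i hi hs
    have h := hok i hi
    simp only [Ok, hs, Bool.false_eq_true, if_false] at h
    obtain ⟨k1, k2, k3, k4⟩ := h
    have k5 := him i hi
    refine ⟨⟨by linarith, ?_⟩, k1, ?_, k1, k2, k3, k4⟩
    · rw [abs_of_nonneg k2]; linarith
    · rw [abs_of_nonneg k2]; linarith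
  have hfar : ∀ i < n, s i = true → R / 8 ≤ |(ψ i).re| ∧ |(ψ i).re| ≤ π ∧ |(ψ i).im| ≤ 1 / N := by
    intro i hi hs
    have h := hok i hi
    simpa only [Ok, hs, if_true] using h
  have hfac : ∀ j < n, ‖K j (ψ j) (ψ ((j + 1) % n))‖ ≤
      Real.exp (N * ((σ j (ψ₀ j) (ψ₀ ((j + 1) % n))).re - κ * b j - κ * b ((j + 1) % n) + ε)) := by
    intro j hj
    have hj' : (j + 1) % n < n := Nat.mod_lt _ (by omega)
    set j' := (j + 1) % n with hj'd
    cases hs : s j with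
    | false =>
      cases hs' : s j' with
      | false =>
        refine (h1 j hj _ (hnear j hj hs).1 _ (hnear j' hj' hs').1).trans (Real.exp_le_exp.2 ?_)
        simp only [hψ₀, hb, hs, hs', Bool.false_eq_true, if_false]
        apply le_of_eq; ring
      | true =>
        obtain ⟨k1, k2, k3⟩ := hfar j' hj' hs'
        obtain ⟨-, k4, k5, -⟩ := hnear j hj hs
        refine ((h2 j hj (ψ j') (ψ j) k1 k2 k3 k4 k5).2).trans (Real.exp_le_exp.2 ?_)
        simp only [hψ₀, hb, hs, hs', Bool.false_eq_true, if_false, if_true]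
        nlinarith
    | true =>
      cases hs' : s j' with
      | false =>
        obtain ⟨k1, k2, k3⟩ := hfar j hj hs
        obtain ⟨-, k4, k5, -⟩ := hnear j' hj' hs'
        refine ((h2 j hj (ψ j) (ψ j') k1 k2 k3 k4 k5).1).trans (Real.exp_le_exp.2 ?_)
        simp only [hψ₀, hb, hs, hs', Bool.false_eq_true, if_false, if_true]
        nlinarith
      | true =>
        obtain ⟨k1, k2, k3⟩ := hfar j hj hs
        obtain ⟨k4, k5, k6⟩ := hfar j' hj' hs'
        refine (h3 j hj (ψ j) (ψ j') k1 k2 k3 k4 k5 k6).trans (Real.exp_le_exp.2 ?_)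
        simp only [hψ₀, hb, hs, hs', if_true]
        nlinarith
  -- the product of the kernels
  have hW : ‖WrF K n ψ‖ ≤ Real.exp (N * ((SgF σ n ψ₀).re - 2 * κ * (∑ i ∈ range n, b i) + n * ε)) := by
    rw [WrF, norm_prod]
    refine (prod_le_prod (fun _ _ => norm_nonneg _) fun j hj => hfac j (mem_range.1 hj)).trans ?_
    rw [← Real.exp_sum]
    refine Real.exp_le_exp.2 (le_of_eq ?_)
    rw [← mul_sum, SgF, Complex.re_sum]
    congr 1
    rw [sum_add_distrib, sum_sub_distrib, sum_sub_distrib, ← mul_sum, ← mul_sum,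
      sum_shift n (by omega) b, sum_const, card_range, nsmul_eq_mul]
    ring
  -- the product of the weights
  have hwg : ∏ i ∈ Ico 0 n, wg a N s ψ i =
      Real.exp (N * ∑ i ∈ range n, if s i = true then 0 else (qx (a i) (ψ i)).re) := by
    rw [mul_sum, Real.exp_sum, ← range_eq_Ico]
    refine prod_congr rfl fun i _ => ?_
    unfold wg
    split_ifs
    · simp
    · rfl
  have hψ₀m : ψ₀ ∈ Bx n R := by
    intro i hi
    simp only [hψ₀]
    cases hs : s i with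
    | true => simp [Rc, hR]
    | false =>
      have := (hnear i hi hs).1
      simp only [Bool.false_eq_true, if_false]
      exact ⟨by linarith [this.1], by linarith [this.2]⟩
  have hyP : ∀ i < n, y i ∈ Pth (R / 8) (z i).im := by
    intro i hi
    simp only [hy]
    cases hs : s i with
    | true =>
      simp only [if_true]
      exact ⟨hz8 i hi, hz0 i hi, le_rfl, Or.inl rfl⟩
    | false =>
      simp only [Bool.false_eq_true, if_false]
      exact (hnear i hi hs).2.2.2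
  have hym : y ∈ Bx n R := by
    intro i hi
    obtain ⟨k1, k2, k3, -⟩ := hyP i hi
    have := him i hi
    refine ⟨by linarith, ?_⟩
    rw [abs_of_nonneg k2]
    linarith
  have hSg : (SgF σ n ψ₀).re ≤ (SgF σ n y).re + B * η * ∑ i ∈ range n, b i := by
    have k1 := lip_all hA hψ₀m hym
    have k2 : ∑ i ∈ range n, ‖ψ₀ i - y i‖ ≤ η * ∑ i ∈ range n, b i := by
      rw [mul_sum]
      refine sum_le_sum fun i hi => ?_
      simp only [hψ₀, hy, hb]
      split_ifs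
      · rw [zero_sub, norm_neg, mul_one]
        exact hzη i (mem_range.1 hi)
      · simp
    have k3 : (SgF σ n ψ₀ - SgF σ n y).re ≤ B * ∑ i ∈ range n, ‖ψ₀ i - y i‖ :=
      (Complex.re_le_norm _).trans k1
    rw [Complex.sub_re] at k3
    have k4 := mul_le_mul_of_nonneg_left k2 hB.le
    linarith
  have hqs : ∑ i ∈ range n, (if s i = true then 0 else (qx (a i) (ψ i)).re) ≤
      ∑ i ∈ range n, (qx (a i) (y i)).re + θ * ∑ i ∈ range n, b i := by
    rw [mul_sum, ← sum_add_distrib]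
    refine sum_le_sum fun i hi => ?_
    simp only [hy, hb]
    split_ifs
    · have := hzθ i (mem_range.1 hi)
      linarith
    · simp
  have hUj : (Uj (SgF σ n) a n y).re = (SgF σ n y).re + ∑ i ∈ range n, (qx (a i) (y i)).re := by
    rw [Uj, Complex.add_re, Complex.re_sum]
    rfl
  have hV := hmx y hyP
  rw [hUj] at hV
  have hF : 1 ≤ ∑ i ∈ range n, b i := by
    obtain ⟨i, hi, hs⟩ := hex
    have : b i ≤ ∑ i ∈ range n, b i := single_le_sum (f := b) (fun i _ => by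
      simp only [hb]; split_ifs <;> norm_num) (mem_range.2 hi)
    have e : b i = 1 := by simp [hb, hs]
    rwa [e] at this
  set F : ℝ := ∑ i ∈ range n, b i with hFd
  rw [hwg]
  refine (mul_le_mul_of_nonneg_left hW (Real.exp_pos _).le).trans ?_
  rw [← Real.exp_add, ← mul_add]
  refine Real.exp_le_exp.2 (mul_le_mul_of_nonneg_left ?_ hN0)
  have k5 : (B * η + θ) * F ≤ κ * F := mul_le_mul_of_nonneg_right hηκ (by linarith)
  have k6 : κ * 1 ≤ κ * F := mul_le_mul_of_nonneg_left hF hκ.le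
  nlinarith

theorem frdf : S_FRDF := by
  intro R c B p₀ C κ τ hC hκ hτ
  set ρ : ℝ := R / 8 with hρd
  refine ⟨1 + |4 * C / ρ| + |C / τ| + |(2 + B) * C / (c * ρ ^ 2 / 32)| +
    |(B * C + C ^ 2 + C) / κ|, by positivity, ?_⟩
  intro n B' σ hn hA _ a ha zz hzz K hsep hK1 hK2 hK3
  have hR := hA.pot.hR.1
  have hR1 := hA.pot.hR.2
  have hc := hA.pot.hc
  have hB := hA.hB
  have hρ : 0 < ρ := by rw [hρd]; positivity
  have hpi := Real.pi_gt_three
  set z : ℕ → ℂ := zz n 0 with hz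
  have h0 : (0 : ℕ → ℂ) ∈ Bx n (R / 2) := by
    intro i _
    simp [Rc, hR]
  -- the sizes of the exponents
  have hM : ∀ i < n, 1 ≤ |(a i : ℝ)| ∧ C / |(a i : ℝ)| ≤ ρ / 4 ∧ C / |(a i : ℝ)| ≤ τ ∧
      (2 + B) * C / |(a i : ℝ)| ≤ c * ρ ^ 2 / 32 ∧ (B * C + C ^ 2 + C) / |(a i : ℝ)| ≤ κ := by
    intro i hi
    have h := ha i hi
    have a1 := abs_nonneg (4 * C / ρ)
    have a2 := abs_nonneg (C / τ)
    have a3 := abs_nonneg ((2 + B) * C / (c * ρ ^ 2 / 32))
    have a4 := abs_nonneg ((B * C + C ^ 2 + C) / κ)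
    have b1 := le_abs_self (4 * C / ρ)
    have b2 := le_abs_self (C / τ)
    have b3 := le_abs_self ((2 + B) * C / (c * ρ ^ 2 / 32))
    have b4 := le_abs_self ((B * C + C ^ 2 + C) / κ)
    have h1 : 1 ≤ |(a i : ℝ)| := by linarith
    have hA0 : 0 < |(a i : ℝ)| := by linarith
    refine ⟨h1, ?_, ?_, ?_, ?_⟩
    · rw [div_le_iff₀ hA0]
      have : 4 * C / ρ ≤ |(a i : ℝ)| := by linarith
      rw [div_le_iff₀ hρ] at this
      linarith
    · rw [div_le_iff₀ hA0]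
      have : C / τ ≤ |(a i : ℝ)| := by linarith
      rw [div_le_iff₀ hτ] at this
      linarith
    · rw [div_le_iff₀ hA0]
      have : (2 + B) * C / (c * ρ ^ 2 / 32) ≤ |(a i : ℝ)| := by linarith
      rw [div_le_iff₀ (by positivity)] at this
      linarith
    · rw [div_le_iff₀ hA0]
      have : (B * C + C ^ 2 + C) / κ ≤ |(a i : ℝ)| := by linarith
      rw [div_le_iff₀ hκ] at this
      linarith
  -- the sizes of the critical values
  have hsm := fun i (hi : i < n) => hzz.sm n le_rfl 0 h0 i hi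
  have hsq : ∀ i < n, ((a i : ℝ)) ^ 2 = |(a i : ℝ)| ^ 2 := fun i _ => (sq_abs _).symm
  have hzn : ∀ i < n, ‖z i‖ ≤ C / |(a i : ℝ)| := fun i hi => (hsm i hi).1
  have hzim : ∀ i < n, (z i).im ≤ C / |(a i : ℝ)| ^ 2 := by
    intro i hi
    have h1 := (hsm i hi).2.2.1
    rw [hsq i hi] at h1
    refine le_trans ?_ h1
    refine le_trans (le_trans (le_of_eq ?_) (le_abs_self _)) (Complex.abs_im_le_norm _)
    have : (2 * (π : ℂ) / (a i : ℂ)) = ((2 * π / (a i : ℝ) : ℝ) : ℂ) := by push_cast; rfl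
    rw [Complex.add_im, this, Complex.ofReal_im, add_zero]
  have hzpos : ∀ i < n, 0 < (z i).im := by
    intro i hi
    refine lt_of_lt_of_le ?_ (hsm i hi).2.2.2
    have := (hM i hi).1
    have h2 : 0 < (a i : ℝ) ^ 2 := by rw [hsq i hi]; positivity
    positivity
  have hzB : z ∈ Bx n R := by
    intro i hi
    have h1 := hzn i hi
    have h2 := (hsm i hi).2.1
    exact ⟨by linarith [Complex.abs_re_le_norm (z i)], by linarith [Complex.abs_im_le_norm (z i)]⟩
  have hcrit := fun i (hi : i < n) => hzz.crit n le_rfl 0 h0 i hi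
  have hzre : ∀ i < n, |(z i).re| ≤ ρ / 2 := by
    intro i hi
    have := (hM i hi).2.1
    linarith [Complex.abs_re_le_norm (z i), hzn i hi]
  have hzi4 : ∀ i < n, (z i).im ≤ ρ / 4 := by
    intro i hi
    have := (hM i hi).2.1
    linarith [Complex.abs_im_le_norm (z i), hzn i hi, le_abs_self (z i).im]
  have hzc : ∀ i < n, (|(a i : ℝ)| * ρ / (2 * π) + 1 + B) * (z i).im ≤ c * ρ ^ 2 / 32 := by
    intro i hi
    obtain ⟨m1, -, -, m4, -⟩ := hM i hi
    refine le_trans ?_ m4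
    have hA0 : 0 < |(a i : ℝ)| := by linarith
    have k1 : |(a i : ℝ)| * ρ / (2 * π) ≤ |(a i : ℝ)| := by
      rw [div_le_iff₀ (by positivity)]
      have : ρ ≤ 1 := by rw [hρd]; linarith
      nlinarith
    have k2 : |(a i : ℝ)| * ρ / (2 * π) + 1 + B ≤ |(a i : ℝ)| * (2 + B) := by nlinarith
    calc (|(a i : ℝ)| * ρ / (2 * π) + 1 + B) * (z i).im ≤
        (|(a i : ℝ)| * (2 + B)) * (C / |(a i : ℝ)| ^ 2) := by
          refine mul_le_mul k2 (hzim i hi) (hzpos i hi).le (by positivity)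
      _ = (2 + B) * C / |(a i : ℝ)| := by field_simp
  set V : ℝ := (Uj (SgF σ n) a n z).re with hV
  have hmx : ∀ y : ℕ → ℂ, (∀ i < n, y i ∈ Pth (R / 8) (z i).im) →
      (Uj (SgF σ n) a n y).re ≤ V := fun y hy =>
    max_path hA hzB hcrit hρ (by rw [hρd]; linarith) hzre (fun i hi => (hzpos i hi).le) hzi4 hzc hy
  -- the smallest exponent
  obtain ⟨i₀, hi₀, hi₀m⟩ := exists_max_image (range n) (fun i => C / |(a i : ℝ)|)
    ⟨0, mem_range.2 (by omega)⟩
  set η : ℝ := C / |(a i₀ : ℝ)| with hη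
  have hi₀' := mem_range.1 hi₀
  have hηle : ∀ i < n, C / |(a i : ℝ)| ≤ η := fun i hi => hi₀m i (mem_range.2 hi)
  obtain ⟨m1, m2, m3, -, m5⟩ := hM i₀ hi₀'
  set θ : ℝ := (C ^ 2 + C) / |(a i₀ : ℝ)| with hθ
  have hA0 : 0 < |(a i₀ : ℝ)| := by linarith
  have hηθ : B * η + θ ≤ κ := by
    refine le_trans (le_of_eq ?_) m5
    rw [hη, hθ]
    ring
  have hθi : ∀ i < n, -(qx (a i) (z i)).re ≤ θ := by
    intro i hi
    have q1 := (hM i hi).1
    have hAi : 0 < |(a i : ℝ)| := by linarith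
    rw [qx_re]
    have e : -(-(a i * (z i).re * (z i).im) / (2 * π) - (z i).im) =
        a i * (z i).re * (z i).im / (2 * π) + (z i).im := by ring
    rw [e]
    have r1 : |(z i).re| ≤ C / |(a i : ℝ)| := (Complex.abs_re_le_norm _).trans (hzn i hi)
    have r2 : |(z i).im| ≤ C / |(a i : ℝ)| := (Complex.abs_im_le_norm _).trans (hzn i hi)
    have r3 : a i * (z i).re * (z i).im ≤ C ^ 2 / |(a i : ℝ)| := by
      refine (le_abs_self _).trans ?_
      rw [abs_mul, abs_mul]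
      calc |(a i : ℝ)| * |(z i).re| * |(z i).im| ≤
          |(a i : ℝ)| * (C / |(a i : ℝ)|) * (C / |(a i : ℝ)|) := by gcongr
        _ = C ^ 2 / |(a i : ℝ)| := by field_simp
    have r4 : a i * (z i).re * (z i).im / (2 * π) ≤ C ^ 2 / |(a i : ℝ)| := by
      rw [div_le_iff₀ (by positivity)]
      have : 0 ≤ C ^ 2 / |(a i : ℝ)| := by positivity
      nlinarith
    have r5 : C ^ 2 / |(a i : ℝ)| ≤ C ^ 2 / |(a i₀ : ℝ)| := by
      have := mul_le_mul_of_nonneg_left (hηle i hi) hC.le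
      calc C ^ 2 / |(a i : ℝ)| = C * (C / |(a i : ℝ)|) := by ring
        _ ≤ C * η := this
        _ = _ := by rw [hη]; ring
    have r6 : C / |(a i : ℝ)| ≤ C / |(a i₀ : ℝ)| := hηle i hi
    have r7 : θ = C ^ 2 / |(a i₀ : ℝ)| + C / |(a i₀ : ℝ)| := by rw [hθ, add_div]
    rw [r7]
    linarith [le_abs_self (z i).im]
  set ε : ℝ := κ / (4 * n) with hε
  have hn0 : (0 : ℝ) < n := by exact_mod_cast (show 0 < n by omega)
  have hε0 : 0 < ε := by positivity
  have hnε : n * ε ≤ κ / 4 := by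
    rw [hε]
    apply le_of_eq
    field_simp
  obtain ⟨Cn, hCn, hmix⟩ := mixed n a ρ (fun i => (z i).im) hρ (by rw [hρd]; linarith)
    (fun i hi => ⟨hzpos i hi, by
      have := hzi4 i hi
      have : ρ ≤ 1 := by rw [hρd]; linarith
      linarith⟩) n le_rfl
  have hbig : ∀ᶠ N : ℕ in atTop, Cn ≤ Real.exp (N * (κ / 4)) := by
    have h1 : Tendsto (fun N : ℕ => Real.exp (N * (κ / 4))) atTop atTop :=
      Real.tendsto_exp_atTop.comp (tendsto_natCast_atTop_atTop.atTop_mul_const (by positivity))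
    exact h1.eventually_ge_atTop Cn
  filter_upwards [hmix, hK1 ε hε0, hK2, hK3, hbig] with N hmix k1 k2 k3 hbig
  have hfin := (hmix (WrF (K N) n) (Real.exp (N * (V - 3 * κ / 4))) (Real.exp_pos _).le
    (WrF_sep hn (hsep N)) (fun s ψ hok hex => point hn hA hκ hε0 hηθ hnε
      (fun i hi => (hzn i hi).trans (hηle i hi)) (by rw [hρd] at m2; linarith) m3 hθi hmx
      (fun i hi => by have := hzre i hi; rw [hρd] at this; linarith)
      (fun i hi => (hzpos i hi).le) k1 k2 k3 hok hex)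
    (fun _ => false) 0 (fun i h1 h2 => by omega)).2
  rw [Ico_self, prod_empty, one_mul] at hfin
  refine hfin.trans ?_
  calc Cn * Real.exp (N * (V - 3 * κ / 4)) ≤
      Real.exp (N * (κ / 4)) * Real.exp (N * (V - 3 * κ / 4)) := by gcongr
    _ = Real.exp (N * (V - κ / 2)) := by
      rw [← Real.exp_add]
      congr 1
      ring

end Pool.Agent.Y470.DX
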