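import Pool.Agent.Y481.DX.Defs
import Pool.Agent.Y978.DR.PotF
import Pool.Agent.Y484.CH.PotA

/-!
# The potentials of the decorated ring near the origin (job DX-POT3F+POTAF)

An edit of `Pool.Agent.Y978.DR.PotF` (potential with the functions of the children) and
`Pool.Agent.Y484.CH.PotA` (absolute constants).
-/

set_option autoImplicit false

namespace Pool.Agent.Y470.DX

open Finset Filter Topology Metric
open Pool.Agent.W711.HT hiding XX
open Pool.Agent.Y472
open Pool.Agent.Y837.CB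
open Pool.Agent.Y304.CB
open Pool.Agent.Y481.DR
open Pool.Agent.Y481.DX
open Pool.Agent.Y978.DR (eF F_diff F_diff2 F_dbd F_small)
open scoped Real

/-- a potential with the functions of the children -/
noncomputable def SF (S : (ℕ → ℂ) → ℂ) (F : ℕ → ℂ → ℂ) (n : ℕ) (ψ : ℕ → ℂ) : ℂ :=
  S ψ + ∑ j ∈ range n, F j (ψ j)

/-- its partial derivatives -/
noncomputable def DF (S : (ℕ → ℂ) → ℂ) (F : ℕ → ℂ → ℂ) (n : ℕ) (j : ℕ) (ψ : ℕ → ℂ) : ℂ :=
  deriv (fun w => SF S F n (Function.update ψ j w)) (ψ j)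

section add

variable {S : (ℕ → ℂ) → ℂ} {D : ℕ → (ℕ → ℂ) → ℂ} {L n : ℕ} {R₁ c B p₀ R₀ B₀ R : ℝ}
  {Y : ℕ → ℕ → ℂ → ℂ} {F : ℕ → ℂ → ℂ}

lemma SF_congr (P : Pot L R₁ c B p₀ S D) (hL : n ≤ L) (F : ℕ → ℂ → ℂ) {ψ ψ' : ℕ → ℂ}
    (h : ∀ i < L, ψ i = ψ' i) : SF S F n ψ = SF S F n ψ' := by
  unfold SF
  rw [(P.dep ψ ψ' h).1]
  congr 1
  refine sum_congr rfl fun i hi => ?_
  rw [h i (by have := mem_range.1 hi; omega)]

lemma SF_der (P : Pot L R₁ c B p₀ S D)
    (hF : ∀ j < n, DG R₀ B₀ (Y j) (F j)) (hR₁ : R ≤ R₁) (hR₀ : R ≤ R₀)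
    {ψ : ℕ → ℂ} (hψ : ψ ∈ Bx L R) {j : ℕ} (hj : j < L) :
    HasDerivAt (fun w => SF S F n (Function.update ψ j w)) (D j ψ + eF F n j (ψ j))
      (ψ j) := by
  have hψ₁ : ψ ∈ Bx L R₁ := fun i hi => Rc_mono hR₁ (hψ i hi)
  have h1 := P.der ψ hψ₁ j hj
  have h2 : HasDerivAt (fun w => ∑ i ∈ range n, F i (Function.update ψ j w i))
      (∑ i ∈ range n, if i = j then deriv (F j) (ψ j) else 0) (ψ j) := by
    apply HasDerivAt.fun_sum
    intro i hi
    have hi' := mem_range.1 hi
    by_cases e : i = j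
    · subst e
      simp only [Function.update_self, if_true]
      exact (F_diff (hF i hi') (Rc_mono hR₀ (hψ i hj))).hasDerivAt
    · simp only [Function.update_of_ne e, if_neg e]
      exact hasDerivAt_const _ _
  have h3 : (∑ i ∈ range n, if i = j then deriv (F j) (ψ j) else 0) = eF F n j (ψ j) := by
    unfold eF
    rw [sum_ite_eq' (range n) j (fun _ => deriv (F j) (ψ j))]
    simp only [mem_range]
  rw [h3] at h2
  exact h1.fun_add h2

lemma DF_eq (P : Pot L R₁ c B p₀ S D)
    (hF : ∀ j < n, DG R₀ B₀ (Y j) (F j)) (hR₁ : R ≤ R₁) (hR₀ : R ≤ R₀)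
    {ψ : ℕ → ℂ} (hψ : ψ ∈ Bx L R) {j : ℕ} (hj : j < L) :
    DF S F n j ψ = D j ψ + eF F n j (ψ j) :=
  (SF_der P hF hR₁ hR₀ hψ hj).deriv

theorem pot_add {p : ℝ} (P : Pot L R₁ c B p₀ S D) (hL : n ≤ L) (hp : 0 < p) (hR : 0 < R)
    (hR₁ : R ≤ R₁) (h₀ : 0 < R₀) (hR₀ : R ≤ R₀ / 4) (hB₀ : 0 < B₀)
    (hsm : n * (4 * B₀ / R₀ * (2 * R)) + p ≤ p₀)
    (hF : ∀ j < n, DG R₀ B₀ (Y j) (F j)) :
    Pot L R c (B + n * B₀ + 4 * B₀ / R₀) p (SF S F n) (DF S F n) := by
  have hR₀' : R ≤ R₀ := by linarith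
  have hBx : ∀ {ψ : ℕ → ℂ}, ψ ∈ Bx L R → ψ ∈ Bx L R₁ :=
    fun hψ i hi => Rc_mono hR₁ (hψ i hi)
  have hbx : bx L R ⊆ bx L R₁ := fun x hx i => Rc_mono hR₁ (hx i)
  have hex : ∀ (i : ℕ), DifferentiableOn ℂ (fun x : Fin L → ℂ => ex L x i)
      (bx L R) := by
    intro i
    unfold ex
    by_cases hi : i < L
    · simp only [hi, dite_true]
      fun_prop
    · simp only [hi, dite_false]
      fun_prop
  have mex : ∀ {i : ℕ}, i < L → ∀ x ∈ bx L R, ex L x i ∈ Rc R R := by
    intro i hi x hx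
    simp only [ex, hi, dite_true]
    exact hx ⟨i, hi⟩
  have mexB : ∀ x ∈ bx L R, ex L x ∈ Bx L R := fun x hx i hi => mex hi x hx
  have hB := P.hB
  have hc := P.hc
  have hnB : 0 ≤ (n : ℝ) * B₀ := by positivity
  have hq : 0 < 4 * B₀ / R₀ := by positivity
  refine
    { hR := ⟨hR, hR₁.trans P.hR.2⟩
      hc := P.hc
      hB := by positivity
      hp := hp
      dep := ?_
      an := ?_
      dan := ?_
      der := ?_
      bd := ?_
      ev := ?_
      conc := ?_
      pos := ?_ }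
  · -- dep
    intro ψ ψ' he
    refine ⟨SF_congr P hL F he, fun j => ?_⟩
    unfold DF
    by_cases hj : j < L
    · rw [he j hj]
      congr 1
      funext w
      apply SF_congr P hL
      intro i hi
      by_cases e : i = j
      · subst e; rw [Function.update_self, Function.update_self]
      · rw [Function.update_of_ne e, Function.update_of_ne e, he i hi]
    · have e1 : ∀ φ : ℕ → ℂ, (fun w => SF S F n (Function.update φ j w)) =
          fun _ => SF S F n φ := by
        intro φ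
        funext w
        apply SF_congr P hL
        intro i hi
        rw [Function.update_of_ne (by omega)]
      rw [e1, e1]
      simp
  · -- an
    unfold SF
    refine (P.an.mono hbx).add ?_
    apply DifferentiableOn.fun_sum
    intro i hi
    have hi' := mem_range.1 hi
    intro x hx
    exact (F_diff (hF i hi') (Rc_mono hR₀' (mex (by omega) x hx))).comp_differentiableWithinAt
      (f := fun x : Fin L → ℂ => ex L x i) x (hex i x hx)
  · -- dan
    intro j hj
    have e : ∀ x ∈ bx L R, DF S F n j (ex L x) =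
        D j (ex L x) + eF F n j (ex L x j) := fun x hx =>
      DF_eq P hF hR₁ hR₀' (mexB x hx) hj
    refine DifferentiableOn.congr ?_ e
    refine ((P.dan j hj).mono hbx).add ?_
    unfold eF
    by_cases hjn : j < n
    · simp only [hjn, if_true]
      intro x hx
      exact (F_diff2 (hF j hjn) (Rc_mono hR₀' (mex hj x hx))).comp_differentiableWithinAt
        (f := fun x : Fin L → ℂ => ex L x j) x (hex j x hx)
    · simp only [hjn, if_false]
      exact differentiableOn_const _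
  · -- der
    intro ψ hψ j hj
    rw [DF_eq P hF hR₁ hR₀' hψ hj]
    exact SF_der P hF hR₁ hR₀' hψ hj
  · -- bd
    intro ψ hψ
    have h1 := P.bd ψ (hBx hψ)
    refine ⟨?_, fun j hj => ?_⟩
    · unfold SF
      refine (norm_add_le _ _).trans ?_
      have h2 : ‖∑ j ∈ range n, F j (ψ j)‖ ≤ n * B₀ := by
        refine (norm_sum_le _ _).trans ?_
        calc ∑ j ∈ range n, ‖F j (ψ j)‖ ≤ ∑ j ∈ range n, B₀ := by
              refine sum_le_sum fun i hi => ?_
              have hi' := mem_range.1 hi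
              exact (hF i hi').Fbd _ (Rc_mono hR₀' (hψ i (by omega)))
          _ = n * B₀ := by rw [sum_const, card_range, nsmul_eq_mul]
      linarith [h1.1]
    · rw [DF_eq P hF hR₁ hR₀' hψ hj]
      refine (norm_add_le _ _).trans ?_
      have h2 : ‖eF F n j (ψ j)‖ ≤ 4 * B₀ / R₀ := by
        unfold eF
        split_ifs with hjn
        · exact F_dbd (hF j hjn) h₀ (Rc_mono (by linarith) (hψ j hj))
        · rw [norm_zero]; exact hq.le
      linarith [h1.2 j hj]
  · -- ev
    intro ψ hψ j hj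
    unfold SF
    rw [P.ev ψ (hBx hψ) j hj]
    congr 1
    refine sum_congr rfl fun i hi => ?_
    have hi' := mem_range.1 hi
    by_cases e : i = j
    · subst e
      rw [Function.update_self]
      exact (hF i hi').Fev _ (Rc_mono hR₀' (hψ i (by omega)))
    · rw [Function.update_of_ne e]
  · -- conc
    intro ψ hψ j hj
    have hc1 := P.conc ψ (hBx hψ) j hj
    have hne : deriv (fun w => D j (Function.update ψ j w)) (ψ j) ≠ 0 := by
      intro h0
      rw [h0] at hc1
      simp only [Complex.zero_re] at hc1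
      linarith
    have hd1 : DifferentiableAt ℂ (fun w => D j (Function.update ψ j w)) (ψ j) :=
      differentiableAt_of_deriv_ne_zero hne
    have hev : (fun w => DF S F n j (Function.update ψ j w)) =ᶠ[𝓝 (ψ j)]
        fun w => D j (Function.update ψ j w) + eF F n j w := by
      filter_upwards [(isOpen_Rc R R).mem_nhds (hψ j hj)] with w hw
      rw [DF_eq P hF hR₁ hR₀' (update_mem hψ hw) hj, Function.update_self]
    rw [hev.deriv_eq]
    by_cases hjn : j < n
    · have e1 : (fun w => D j (Function.update ψ j w) + eF F n j w) =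
          fun w => D j (Function.update ψ j w) + deriv (F j) w := by
        funext w
        simp only [eF, hjn, if_true]
      have hm := Rc_mono hR₀' (hψ j hj)
      rw [e1, deriv_fun_add hd1 (F_diff2 (hF j hjn) hm), Complex.add_re]
      have h3 := (hF j hjn).Fconc _ hm
      linarith
    · have e1 : (fun w => D j (Function.update ψ j w) + eF F n j w) =
          fun w => D j (Function.update ψ j w) := by
        funext w
        simp only [eF, hjn, if_false, add_zero]
      rw [e1]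
      exact hc1
  · -- pos
    intro ψ hψ
    have h1 := P.pos ψ (hBx hψ)
    have h2 : ‖∑ j ∈ range n, F j (ψ j)‖ ≤ n * (4 * B₀ / R₀ * (2 * R)) := by
      refine (norm_sum_le _ _).trans ?_
      calc ∑ j ∈ range n, ‖F j (ψ j)‖ ≤ ∑ j ∈ range n, (4 * B₀ / R₀ * (2 * R)) := by
            refine sum_le_sum fun i hi => ?_
            have hi' := mem_range.1 hi
            exact F_small (hF i hi') h₀ hR₀ (hψ i (by omega))
        _ = _ := by rw [sum_const, card_range, nsmul_eq_mul]
    have h3 := (abs_le.1 (Complex.abs_re_le_norm (∑ j ∈ range n, F j (ψ j)))).1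
    unfold SF
    rw [Complex.add_re]
    linarith

/-- Cauchy's estimate for the second derivative -/
lemma F_d2bd {Y : ℕ → ℂ → ℂ} {F : ℂ → ℂ} (h : DG R₀ B₀ Y F) (hR₀ : 0 < R₀) {z : ℂ}
    (hz : z ∈ Rc (R₀ / 4) (R₀ / 4)) : ‖deriv (deriv F) z‖ ≤ 16 * B₀ / R₀ ^ 2 := by
  have hball : ∀ w ∈ closedBall z (R₀ / 4), w ∈ Rc (R₀ / 2) (R₀ / 2) := by
    intro w hw
    have hw' : ‖w - z‖ ≤ R₀ / 4 := by simpa [dist_eq_norm] using hw
    exact Rc_mono (by linarith) (Rc_add hz hw')
  have hdc : DiffContOnCl ℂ (deriv F) (ball z (R₀ / 4)) := by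
    apply DifferentiableOn.diffContOnCl
    rw [closure_ball _ (by positivity)]
    intro w hw
    exact (F_diff2 h (Rc_mono (by linarith) (hball w hw))).differentiableWithinAt
  have key := Complex.norm_deriv_le_of_forall_mem_sphere_norm_le (C := 4 * B₀ / R₀)
    (by positivity : (0:ℝ) < R₀ / 4) hdc (fun w hw =>
      F_dbd h hR₀ (hball w (sphere_subset_closedBall hw)))
  refine key.trans (le_of_eq ?_)
  field_simp
  ring

end add

theorem pot3f : S_POT3F := by
  intro ρ₀ c C s dl h R₀ B₀ hR₀ hB₀ n hn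
  obtain ⟨R₁, c', hR₁, hR₁ρ, hc', hpot⟩ := Pool.Agent.Y837.CB.pot ρ₀ c C s dl h
  obtain ⟨B, hB, P⟩ := hpot n hn
  have hbet := Pool.Agent.Y481.bet_pos
  have hn0 : (0:ℝ) < n := by exact_mod_cast (by omega : 0 < n)
  set r : ℝ := bet * R₀ / (16 * n * B₀) with hr
  have hr0 : 0 < r := by positivity
  set R : ℝ := min R₁ (min (R₀ / 4) r) with hRdef
  have h1 : R ≤ R₁ := min_le_left _ _
  have h2 : R ≤ R₀ / 4 := (min_le_right _ _).trans (min_le_left _ _)
  have h3 : R ≤ r := (min_le_right _ _).trans (min_le_right _ _)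
  have hR : 0 < R := lt_min hR₁ (lt_min (by positivity) hr0)
  refine ⟨R, c', B + n * B₀ + 4 * B₀ / R₀, hR, h1.trans hR₁ρ, by linarith, hc', by positivity,
    fun Y F hF => ?_⟩
  have hsm : n * (4 * B₀ / R₀ * (2 * R)) + bet / 2 ≤ bet := by
    have : n * (4 * B₀ / R₀ * (2 * R)) ≤ bet / 2 := by
      calc (n : ℝ) * (4 * B₀ / R₀ * (2 * R)) ≤ n * (4 * B₀ / R₀ * (2 * r)) := by gcongr
        _ = bet / 2 := by
            rw [hr]
            field_simp
            norm_num
    linarith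
  exact pot_add P (by omega) (by positivity) hR h1 hR₀ h2 hB₀ hsm hF

theorem potaf : S_POTAF := by
  intro ρ₀ c C s dl h R₀ B₀ hR₀ hB₀
  obtain ⟨R₁, c', B, p₀, hR₁, hR₁ρ, hpot⟩ := Pool.Agent.Y484.CH.pota ρ₀ c C s dl h
  have hρ := h.hρ.1
  -- the constants are positive
  obtain ⟨B'₀, P₀⟩ := hpot R₁ hR₁ le_rfl 2 le_rfl
  have Q₀ := P₀ 0 (Pool.Agent.Y484.CH.zero_mem hR₁)
  have hp₀ := Q₀.hp
  have hB := Q₀.hB
  set r : ℝ := p₀ * R₀ / (16 * B₀) with hr
  have hr0 : 0 < r := by positivity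
  set R : ℝ := min R₁ (min (R₀ / 4) r) with hRdef
  have h1 : R ≤ R₁ := min_le_left _ _
  have h2 : R ≤ R₀ / 4 := (min_le_right _ _).trans (min_le_left _ _)
  have h3 : R ≤ r := (min_le_right _ _).trans (min_le_right _ _)
  have hR : 0 < R := lt_min hR₁ (lt_min (by positivity) hr0)
  refine ⟨R, c', B + 4 * B₀ / R₀ + 16 * B₀ / R₀ ^ 2, p₀ / 2, hR, h1.trans hR₁ρ, by linarith,
    fun R' hR'0 hR' n hn => ?_⟩
  obtain ⟨B', P⟩ := hpot R' hR'0 (hR'.trans h1) n hn
  have hn0 : (0:ℝ) < n := by exact_mod_cast (by omega : 0 < n)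
  refine ⟨B' + n * B₀ + 4 * B₀ / R₀, fun Y F hF χ hχ => ?_⟩
  have Q := P χ (Rc_mono h1 hχ)
  have hR'4 : R' ≤ R₀ / 4 := hR'.trans h2
  have hsm : n * (4 * B₀ / R₀ * (2 * R')) + p₀ / 2 * n ≤ p₀ * n := by
    have : 4 * B₀ / R₀ * (2 * R') ≤ p₀ / 2 := by
      calc 4 * B₀ / R₀ * (2 * R') ≤ 4 * B₀ / R₀ * (2 * r) := by
            have := hR'.trans h3
            gcongr
        _ = p₀ / 2 := by
            rw [hr]
            field_simp
            norm_num
    nlinarith
  have hq1 : 0 < 4 * B₀ / R₀ := by positivity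
  have hq2 : 0 < 16 * B₀ / R₀ ^ 2 := by positivity
  have hadd : Pot n R' c' (B' + n * B₀ + 4 * B₀ / R₀) (p₀ / 2 * n) (SF (Sx s n χ) F n)
      (DF (Sx s n χ) F n) :=
    pot_add Q.pot le_rfl (by positivity) hR'0 le_rfl hR₀ hR'4 hB₀ hsm hF
  have hR'R₀ : R' ≤ R₀ := by linarith
  have hmul : ∀ ψ ∈ Bx n R', ∀ j < n, DF (Sx s n χ) F n j ψ =
      Dx s n χ j ψ + deriv (F j) (ψ j) := by
    intro ψ hψ j hj
    rw [DF_eq Q.pot hF le_rfl hR'R₀ hψ hj]
    simp only [eF, hj, if_true]
  have goal : PotA n R' c' (B + 4 * B₀ / R₀ + 16 * B₀ / R₀ ^ 2) (p₀ / 2)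
      (B' + n * B₀ + 4 * B₀ / R₀) (SF (Sx s n χ) F n) (DF (Sx s n χ) F n) := by
    refine
      { pot := hadd
        hB := by positivity
        hp := by positivity
        dbd := ?_
        diag := ?_
        off := ?_ }
    · intro ψ hψ j hj
      rw [hmul ψ hψ j hj]
      refine (norm_add_le _ _).trans ?_
      have k1 := Q.dbd ψ hψ j hj
      have k2 := F_dbd (hF j hj) hR₀ (Rc_mono (by linarith) (hψ j hj))
      linarith
    · intro ψ hψ j hj
      have hc1 := Q.pot.conc ψ hψ j hj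
      have hc' := Q.pot.hc
      have hne : deriv (fun w => Dx s n χ j (Function.update ψ j w)) (ψ j) ≠ 0 := by
        intro h0
        rw [h0] at hc1
        simp only [Complex.zero_re] at hc1
        linarith
      have hd1 : DifferentiableAt ℂ (fun w => Dx s n χ j (Function.update ψ j w)) (ψ j) :=
        differentiableAt_of_deriv_ne_zero hne
      have hev : (fun w => DF (Sx s n χ) F n j (Function.update ψ j w)) =ᶠ[𝓝 (ψ j)]
          fun w => Dx s n χ j (Function.update ψ j w) + deriv (F j) w := by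
        filter_upwards [(isOpen_Rc R' R').mem_nhds (hψ j hj)] with w hw
        rw [hmul _ (update_mem hψ hw) j hj, Function.update_self]
      rw [hev.deriv_eq, deriv_fun_add hd1 (F_diff2 (hF j hj) (Rc_mono hR'R₀ (hψ j hj)))]
      refine (norm_add_le _ _).trans ?_
      have k1 := Q.diag ψ hψ j hj
      have k2 := F_d2bd (hF j hj) hR₀ (Rc_mono hR'4 (hψ j hj))
      linarith
    · intro ψ hψ j hj
      refine (le_of_eq (sum_congr rfl fun i hi => ?_)).trans (Q.off ψ hψ j hj)
      obtain ⟨hij, hi'⟩ := mem_erase.1 hi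
      have hi' := mem_range.1 hi'
      have hev : (fun w => DF (Sx s n χ) F n j (Function.update ψ i w)) =ᶠ[𝓝 (ψ i)]
          fun w => Dx s n χ j (Function.update ψ i w) + deriv (F j) (ψ j) := by
        filter_upwards [(isOpen_Rc R' R').mem_nhds (hψ i hi')] with w hw
        rw [hmul _ (update_mem hψ hw) j hj, Function.update_of_ne hij.symm]
      rw [hev.deriv_eq, deriv_add_const]
  exact goal

end Pool.Agent.Y470.DX
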